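import Pool.Agent.N178.HX.StmD
import Pool.Agent.N216.GHC.F

/-!
# The shift of the weight with an arbitrary centre (subtask GHC3/SHIFT of helper178)
-/

set_option autoImplicit false
set_option linter.unusedSectionVars false

namespace Pool.Agent.N216.HX

open Finset Pool.Agent.N178.HW Pool.Agent.V1168.GH Pool.Agent.N178.HX
open Pool.Agent.N216.GHC (Lo Hi Cl lo_add_hi lo_inj lo_surj lo_inv exists_rev)

variable {R P : Type} [Fintype R] [DecidableEq R] [DecidableEq P]
  {cls : R → P} {b : P → P} {inv : R → R} {jj : R → ℂ} {X : R → Prop} {h : R → ℤ}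

theorem sum_toNat_odd (hi : ∀ x, inv (inv x) = x) (f : R → ℤ) (hf : ∀ x, f (inv x) = -f x) :
    ∑ x, |f x| = 2 * ((∑ x, (f x).toNat : ℕ) : ℤ) := by
  have h1 : ∑ x, ((f x).toNat : ℤ) = ∑ x, ((-f x).toNat : ℤ) := by
    rw [← Equiv.sum_comp (Function.Involutive.toPerm inv hi) (fun x => ((f x).toNat : ℤ))]
    refine sum_congr rfl fun x _ => ?_
    change ((f (inv x)).toNat : ℤ) = _
    rw [hf]
  push_cast
  rw [two_mul]
  nth_rewrite 2 [h1]
  rw [← sum_add_distrib]
  refine sum_congr rfl fun x _ => ?_
  rcases le_total 0 (f x) with h | h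
  · rw [abs_of_nonneg h]
    omega
  · rw [abs_of_nonpos h]
    omega

theorem card_Cl_b (hF : Fr cls b inv jj X) (hb : ∀ p, b (b p) = p) (p : P) :
    (Cl cls (b p)).card = (Cl cls p).card := by
  refine card_bij' (fun y _ => inv y) (fun y _ => inv y) ?_ ?_ ?_ ?_
  · intro y hy
    have h1 := (mem_filter.1 hy).2
    exact mem_filter.2 ⟨mem_univ _, by rw [hF.ci, h1, hb]⟩
  · intro y hy
    have h1 := (mem_filter.1 hy).2
    exact mem_filter.2 ⟨mem_univ _, by rw [hF.ci, h1]⟩
  · intro y _
    exact hF.ii y
  · intro y _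
    exact hF.ii y

section med

variable (cls h)

/-- The rank in the class. -/
def lo (x : R) : ℕ := (Lo cls h x).card

def hi (x : R) : ℕ := (Hi cls h x).card

variable {cls h}

theorem lh (hh : ∀ x y, cls x = cls y → h x = h y → x = y) (x : R) :
    lo cls h x + hi cls h x + 1 = (Cl cls (cls x)).card := lo_add_hi hh x

theorem lo_mono {x y : R} (hxy : cls x = cls y) (h1 : h x ≤ h y) : lo cls h x ≤ lo cls h y := by
  apply card_le_card
  intro z hz
  have h2 := (mem_filter.1 hz).2
  exact mem_filter.2 ⟨mem_univ _, h2.1.trans hxy, h2.2.trans_le h1⟩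

theorem c_mono (hh : ∀ x y, cls x = cls y → h x = h y → x = y) {c : R → ℤ}
    (hm : ∀ x y, cls x = cls y → h x < h y → c x ≤ c y) {x y : R} (hxy : cls x = cls y)
    (h1 : lo cls h x ≤ lo cls h y) : c x ≤ c y := by
  rcases lt_trichotomy (h x) (h y) with h2 | h2 | h2
  · exact hm x y hxy h2
  · rw [hh x y hxy h2]
  · have h3 := lo_mono hxy.symm h2.le
    have h4 : x = y := lo_inj hh hxy (le_antisymm h1 h3)
    rw [h4]

theorem lo_i (hF : Fr cls b inv jj X) (hb : ∀ p, b (b p) = p) (ho : ∀ x, h (inv x) = -h x)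
    (x : R) : lo cls h (inv x) = hi cls h x := by
  classical
  exact lo_inv hF hb ho x

theorem hi_i (hF : Fr cls b inv jj X) (hb : ∀ p, b (b p) = p) (ho : ∀ x, h (inv x) = -h x)
    (x : R) : hi cls h (inv x) = lo cls h x := by
  have := lo_i (cls := cls) (h := h) hF hb ho (inv x)
  rw [hF.ii] at this
  exact this.symm

/-- There is a middle value: an odd function `t` of the classes between the values of `c` on the lower
half and on the upper half. -/
theorem exists_med (hF : Fr cls b inv jj X) (hb : ∀ p, b (b p) = p) (hH : Hgt cls inv X h)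
    {c : R → ℤ} (hc : ∀ x, c (inv x) = -c x)
    (hm : ∀ x y, cls x = cls y → h x < h y → c x ≤ c y) :
    ∃ t : P → ℤ, (∀ p, t (b p) = -t p) ∧ (∀ x, hi cls h x ≤ lo cls h x → t (cls x) ≤ c x) ∧
      (∀ x, lo cls h x ≤ hi cls h x → c x ≤ t (cls x)) := by
  classical
  -- the smallest value on the upper half, the largest value on the lower half
  let U : P → Finset R := fun p => univ.filter fun x => cls x = p ∧ hi cls h x ≤ lo cls h x
  let L : P → Finset R := fun p => univ.filter fun x => cls x = p ∧ lo cls h x ≤ hi cls h x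
  let B : P → ℤ := fun p => if hp : (U p).Nonempty then (U p).inf' hp c else 0
  let A : P → ℤ := fun p => if hp : (L p).Nonempty then (L p).sup' hp c else 0
  have hB1 : ∀ x, hi cls h x ≤ lo cls h x → B (cls x) ≤ c x := fun x hx => by
    have h1 : x ∈ U (cls x) := mem_filter.2 ⟨mem_univ _, rfl, hx⟩
    simp only [B]
    rw [dif_pos ⟨x, h1⟩]
    exact inf'_le _ h1
  have hA1 : ∀ x, lo cls h x ≤ hi cls h x → c x ≤ A (cls x) := fun x hx => by
    have h1 : x ∈ L (cls x) := mem_filter.2 ⟨mem_univ _, rfl, hx⟩
    simp only [A]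
    rw [dif_pos ⟨x, h1⟩]
    exact le_sup' _ h1
  have hLU : ∀ p x, x ∈ L p ↔ inv x ∈ U (b p) := fun p x => by
    simp only [L, U, mem_filter, mem_univ, true_and]
    rw [lo_i hF hb hH.odd, hi_i hF hb hH.odd, hF.ci]
    constructor
    · rintro ⟨h1, h2⟩
      exact ⟨by rw [h1], h2⟩
    · rintro ⟨h1, h2⟩
      exact ⟨by rw [← hb (cls x), h1, hb], h2⟩
  have hAB : ∀ p, B (b p) = - A p := fun p => by
    by_cases hp : (L p).Nonempty
    · have hp' : (U (b p)).Nonempty := by
        obtain ⟨x, hx⟩ := hp
        exact ⟨inv x, (hLU p x).1 hx⟩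
      simp only [A, B]
      rw [dif_pos hp, dif_pos hp']
      apply le_antisymm
      · obtain ⟨x, hx, hx'⟩ := exists_mem_eq_sup' hp c
        rw [hx', ← hc]
        exact inf'_le _ ((hLU p x).1 hx)
      · obtain ⟨x, hx, hx'⟩ := exists_mem_eq_inf' hp' c
        rw [hx', neg_le, ← hc]
        refine le_sup' _ ((hLU p _).2 ?_)
        rw [hF.ii]
        exact hx
    · have hp' : ¬ (U (b p)).Nonempty := by
        rintro ⟨x, hx⟩
        refine hp ⟨inv x, (hLU p _).2 ?_⟩
        rw [hF.ii]
        exact hx
      simp only [A, B]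
      rw [dif_neg hp, dif_neg hp', neg_zero]
  have hAle : ∀ p, A p ≤ B p := fun p => by
    by_cases hp : (Cl cls p).Nonempty
    · have h0 := card_pos.2 hp
      -- the two middle elements
      obtain ⟨x, hx1, hx2⟩ := lo_surj (h := h) hH.inj p ((Cl cls p).card / 2) (by omega)
      obtain ⟨y, hy1, hy2⟩ := lo_surj (h := h) hH.inj p (((Cl cls p).card - 1) / 2) (by omega)
      have hx3 := lh hH.inj x
      have hy3 := lh hH.inj y
      rw [hx1] at hx3
      rw [hy1] at hy3
      have hx2' : lo cls h x = (Cl cls p).card / 2 := hx2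
      have hy2' : lo cls h y = ((Cl cls p).card - 1) / 2 := hy2
      have hxU : x ∈ U p := mem_filter.2 ⟨mem_univ _, hx1, by omega⟩
      have hyL : y ∈ L p := mem_filter.2 ⟨mem_univ _, hy1, by omega⟩
      simp only [A, B]
      rw [dif_pos ⟨y, hyL⟩, dif_pos ⟨x, hxU⟩]
      apply le_inf'
      intro u hu
      apply sup'_le
      intro l hl
      have hu' := (mem_filter.1 hu).2
      have hl' := (mem_filter.1 hl).2
      refine c_mono hH.inj hm (hl'.1.trans hu'.1.symm) ?_
      have h1 := lh hH.inj u
      have h2 := lh hH.inj l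
      rw [hu'.1] at h1
      rw [hl'.1] at h2
      omega
    · have h1 : ∀ x, cls x ≠ p := fun x hx => hp ⟨x, mem_filter.2 ⟨mem_univ _, hx⟩⟩
      simp only [A, B]
      rw [dif_neg, dif_neg]
      · rintro ⟨x, hx⟩
        exact h1 x (mem_filter.1 hx).2.1
      · rintro ⟨x, hx⟩
        exact h1 x (mem_filter.1 hx).2.1
  refine ⟨fun p => max (A p) (min 0 (B p)), fun p => ?_, fun x hx => ?_, fun x hx => ?_⟩
  · have h1 := hAB p
    have h2 := hAB (b p)
    rw [hb] at h2
    have h3 := hAle p
    have h4 : A (b p) = - B p := by omega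
    simp only
    rw [h1, h4]
    omega
  · have h1 := hB1 x hx
    have h2 := hAle (cls x)
    simp only
    omega
  · have h1 := hA1 x hx
    simp only
    omega

/-- In each class there are as many elements below as above the middle. -/
theorem card_up (hF : Fr cls b inv jj X) (hb : ∀ p, b (b p) = p) (hH : Hgt cls inv X h) (p : P) :
    (univ.filter fun x => cls x = p ∧ hi cls h x < lo cls h x).card =
      (univ.filter fun x => cls x = p ∧ lo cls h x < hi cls h x).card := by
  classical
  obtain ⟨τ, t1, t2, t3, t4⟩ := exists_rev hF hb hH.odd hH.inj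
  have t5 : ∀ x, lo cls h (τ x) = hi cls h x := t4
  have t6 : ∀ x, hi cls h (τ x) = lo cls h x := fun x => by
    have := t5 (τ x)
    rw [t1] at this
    exact this.symm
  refine card_bij' (fun y _ => τ y) (fun y _ => τ y) ?_ ?_ ?_ ?_
  · intro y hy
    have h1 := (mem_filter.1 hy).2
    exact mem_filter.2 ⟨mem_univ _, by rw [t3, h1.1], by rw [t5, t6]; exact h1.2⟩
  · intro y hy
    have h1 := (mem_filter.1 hy).2
    exact mem_filter.2 ⟨mem_univ _, by rw [t3, h1.1], by rw [t5, t6]; exact h1.2⟩
  · intro y _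
    exact t1 y
  · intro y _
    exact t1 y

/-- The number of middle elements. -/
theorem card_mid (hH : Hgt cls inv X h) (p : P) :
    (univ.filter fun x => cls x = p ∧ lo cls h x = hi cls h x).card = (Cl cls p).card % 2 := by
  rcases Nat.mod_two_eq_zero_or_one (Cl cls p).card with h1 | h1
  · rw [h1, card_eq_zero, filter_eq_empty_iff]
    rintro x - ⟨hx, hx'⟩
    have h2 := lh hH.inj x
    rw [hx] at h2
    omega
  · rw [h1, card_eq_one]
    obtain ⟨x, hx1, hx2⟩ := lo_surj (h := h) hH.inj p ((Cl cls p).card / 2) (by omega)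
    have hx2' : lo cls h x = (Cl cls p).card / 2 := hx2
    refine ⟨x, ?_⟩
    ext y
    rw [mem_filter, mem_singleton]
    constructor
    · rintro ⟨-, hy, hy'⟩
      have h2 := lh hH.inj y
      rw [hy] at h2
      refine lo_inj (h := h) hH.inj (hy.trans hx1.symm) ?_
      change lo cls h y = lo cls h x
      omega
    · rintro rfl
      refine ⟨mem_univ _, hx1, ?_⟩
      have h2 := lh hH.inj y
      rw [hx1] at h2
      omega

end med

theorem t_SHIFTG : S_SHIFTG := by
  classical
  intro S R P _ _ _ _ _ cls b inv jj X h hF hH hb e heb he hpar hSE c hc hm n hn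
  have hpar' : ∀ s p, Even (e s p + (Cl cls p).card) := hpar
  obtain ⟨t, t1, t2, t3⟩ := exists_med hF hb hH hc hm
  -- the middle elements
  have t4 : ∀ x, lo cls h x = hi cls h x → c x = t (cls x) := fun x hx =>
    le_antisymm (t3 x hx.le) (t2 x hx.ge)
  set D : ℕ := ∑ x, (c x - t (cls x)).toNat with hD
  have hD2 : ∑ x, |c x - t (cls x)| = 2 * (D : ℤ) :=
    sum_toNat_odd hF.ii (fun x => c x - t (cls x)) (fun x => by rw [hc, hF.ci, t1]; ring)
  have emid : ∀ s x, lo cls h x = hi cls h x → e s (cls x) = 1 ∨ e s (cls x) = -1 := fun s x hx => by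
    have h1 := lh hH.inj x
    have h2 := hpar' s (cls x)
    rcases he s (cls x) with h3 | h3 | h3
    · exact Or.inr h3
    · rw [h3, zero_add] at h2
      have h4 : Even (Cl cls (cls x)).card := by exact_mod_cast h2
      rw [← h1, hx] at h4
      exact absurd h4 (by rw [Nat.not_even_iff_odd]; exact ⟨hi cls h x, by ring⟩)
    · exact Or.inl h3
  have eeven : ∀ s p, (Cl cls p).card % 2 = 0 → e s p = 0 := fun s p hp => by
    have h2 := hpar' s p
    have h3 : Even ((Cl cls p).card : ℤ) := by
      exact_mod_cast Nat.even_iff.2 hp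
    rcases he s p with h4 | h4 | h4
    · rw [h4, Int.even_add] at h2
      exact absurd (h2.2 h3) (by decide)
    · exact h4
    · rw [h4, Int.even_add] at h2
      exact absurd (h2.2 h3) (by decide)
  -- the sign functions
  let dd : ℤ → S → R → ℤ := fun ε s x =>
    if hi cls h x < lo cls h x then ε else if lo cls h x < hi cls h x then -ε else e s (cls x)
  have hsum : ∀ ε s (f : P → ℤ), ∀ p, ∑ x ∈ univ.filter (fun x => cls x = p), dd ε s x = e s p := by
    intro ε s f p
    have h1 : ∀ x ∈ univ.filter (fun x => cls x = p), dd ε s x =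
        (if hi cls h x < lo cls h x then ε else 0) - (if lo cls h x < hi cls h x then ε else 0) +
          (if lo cls h x = hi cls h x then e s p else 0) := by
      intro x hx
      have hx' : cls x = p := (mem_filter.1 hx).2
      simp only [dd]
      rw [hx']
      split_ifs <;> omega
    rw [sum_congr rfl h1, sum_add_distrib, sum_sub_distrib, ← sum_filter, ← sum_filter,
      ← sum_filter, filter_filter, filter_filter, filter_filter, sum_const, sum_const, sum_const,
      card_up hF hb hH, card_mid hH]
    rcases Nat.mod_two_eq_zero_or_one (Cl cls p).card with h2 | h2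
    · rw [h2, eeven s p h2]
      simp
    · rw [h2]
      simp
  have hIs : ∀ ε s, (ε = 1 ∨ ε = -1) → IsSg cls inv (e s) (dd ε s) := by
    intro ε s hε
    refine ⟨fun x => ?_, fun x => ?_, hsum ε s 0⟩
    · simp only [dd]
      split_ifs with h1 h2
      · exact hε
      · rcases hε with h | h
        · right; rw [h]
        · left; rw [h]; rfl
      · exact emid s x (by omega)
    · simp only [dd]
      rw [lo_i hF hb hH.odd, hi_i hF hb hH.odd, hF.ci, heb]
      split_ifs <;> omega
  have hval : ∀ ε s, (ε = 1 ∨ ε = -1) → ∑ x, c x * dd ε s x = ε * (2 * D) + ∑ p, t p * e s p := by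
    intro ε s hε
    have h1 : ∑ x, t (cls x) * dd ε s x = ∑ p, t p * e s p := by
      rw [← sum_fiberwise univ cls]
      refine sum_congr rfl fun p _ => ?_
      rw [← hsum ε s 0 p, mul_sum]
      refine sum_congr rfl fun x hx => ?_
      rw [(mem_filter.1 hx).2]
    have h2 : ∑ x, (c x - t (cls x)) * dd ε s x = ε * (2 * D) := by
      rw [← hD2, mul_sum]
      refine sum_congr rfl fun x _ => ?_
      simp only [dd]
      split_ifs with h3 h4
      · rw [abs_of_nonneg (sub_nonneg.2 (t2 x h3.le)), mul_comm]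
      · rw [abs_of_nonpos (sub_nonpos.2 (t3 x h4.le))]
        ring
      · have h5 := t4 x (by omega)
        rw [h5, sub_self, abs_zero, zero_mul, mul_zero]
    rw [← h2, ← h1, ← sum_add_distrib]
    exact sum_congr rfl fun x _ => by ring
  -- the orientation
  let ι : P → ℕ := fun p => (Fintype.equivFin P p : ℕ)
  have hι : ∀ p q, ι p = ι q → p = q := fun p q hpq =>
    (Fintype.equivFin P).injective (Fin.ext hpq)
  let m : P → ℤ := fun p => if ι p < ι (b p) then t p else 0
  have hchi : ∀ s, ∑ p, t p * e s p = 2 * ∑ p, m p * e s p := by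
    intro s
    have h1 : ∑ p, m (b p) * e s (b p) = ∑ p, m p * e s p :=
      Equiv.sum_comp (Function.Involutive.toPerm b hb) (fun p => m p * e s p)
    rw [two_mul]
    nth_rewrite 2 [← h1]
    rw [← sum_add_distrib]
    refine sum_congr rfl fun p _ => ?_
    simp only [m]
    rw [hb, heb]
    rcases lt_trichotomy (ι p) (ι (b p)) with h2 | h2 | h2
    · rw [if_pos h2, if_neg (by omega)]
      ring
    · have h3 := hι _ _ h2
      have h4 : e s p = 0 := by
        have := heb s p
        rw [← h3] at this
        omega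
      rw [h4]
      ring
    · rw [if_neg (by omega), if_pos h2, t1]
      ring
  have hbound : ∀ s, |∑ p, m p * e s p| + D ≤ n := by
    intro s
    have h1 := hn s _ (hIs 1 s (Or.inl rfl))
    have h2 := hn s _ (hIs (-1) s (Or.inr rfl))
    rw [hval 1 s (Or.inl rfl), hchi] at h1
    rw [hval (-1) s (Or.inr rfl), hchi] at h2
    rw [abs_le] at h1 h2
    rcases abs_cases (∑ p, m p * e s p) with ⟨h3, -⟩ | ⟨h3, -⟩ <;> rw [h3] <;> omega
  obtain ⟨s0⟩ := ‹Nonempty S›
  have hDn : D ≤ n := by
    have h1 := hbound s0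
    have h2 := abs_nonneg (∑ p, m p * e s0 p)
    omega
  obtain ⟨a', ha1, ha2, ha3⟩ := hSE m (n - D) (fun s => by
    have h1 := hbound s
    rw [Nat.cast_sub hDn]
    omega)
  refine ⟨fun p => - t p + a' p - a' (b p), fun p => ?_, fun s => ?_, ?_⟩
  · simp only
    rw [hb, t1]
    ring
  · have h1 : ∑ p, (a' (b p) : ℤ) * e s (b p) = ∑ p, (a' p : ℤ) * e s p :=
      Equiv.sum_comp (Function.Involutive.toPerm b hb) (fun p => (a' p : ℤ) * e s p)
    have h2 : ∑ p, (- t p + a' p - a' (b p)) * e s p = - ∑ p, t p * e s p +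
        ∑ p, (a' p : ℤ) * e s p + ∑ p, (a' (b p) : ℤ) * e s (b p) := by
      rw [← sum_neg_distrib, ← sum_add_distrib, ← sum_add_distrib]
      refine sum_congr rfl fun p _ => ?_
      rw [heb]
      ring
    rw [h2, h1, hchi, ha3]
    ring
  · have h1 : ∀ x, (c x + (- t (cls x) + a' (cls x) - a' (b (cls x)))).toNat ≤
        (c x - t (cls x)).toNat + if (Cl cls (cls x)).card = 1 then a' (cls x) else 0 := by
      intro x
      by_cases h2 : (Cl cls (cls x)).card = 1
      · rw [if_pos h2]
        have h3 := lh hH.inj x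
        have h4 := t4 x (by omega)
        rw [h4]
        omega
      · rw [if_neg h2]
        have h3 : a' (cls x) = 0 := by
          by_contra h3
          exact h2 (ha1 _ h3)
        have h4 : a' (b (cls x)) = 0 := by
          by_contra h4
          exact h2 ((card_Cl_b hF hb _).symm.trans (ha1 _ h4))
        rw [h3, h4]
        omega
    have h2 : ∑ x, (if (Cl cls (cls x)).card = 1 then a' (cls x) else 0) = ∑ p, a' p := by
      rw [← sum_fiberwise univ cls]
      refine sum_congr rfl fun p _ => ?_
      by_cases h3 : (Cl cls p).card = 1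
      · rw [sum_congr rfl (g := fun _ => a' p), sum_const]
        · have h4 : (univ.filter fun x => cls x = p).card = 1 := h3
          rw [h4, one_smul]
        · intro x hx
          rw [(mem_filter.1 hx).2, if_pos h3]
      · have h4 : a' p = 0 := by
          by_contra h4
          exact h3 (ha1 _ h4)
        rw [h4]
        refine sum_eq_zero fun x hx => ?_
        rw [(mem_filter.1 hx).2, if_neg h3]
    calc ∑ x, (c x + (- t (cls x) + a' (cls x) - a' (b (cls x)))).toNat
        ≤ ∑ x, ((c x - t (cls x)).toNat + if (Cl cls (cls x)).card = 1 then a' (cls x) else 0) :=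
          sum_le_sum fun x _ => h1 x
      _ = D + ∑ p, a' p := by rw [sum_add_distrib, h2]
      _ ≤ n := by omega

end Pool.Agent.N216.HX
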